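import Pool.Agent.PL.Main

set_option autoImplicit false

namespace Pool.Agent.Results.MP_0b9e0b_ag.PencilsOnLineCovered

open Pool.Agent.Helper16.BB Pool.Agent.PL

/-- Let `k` be a finite field, `V` a closed subvariety of a projective space over `k`, given by
homogeneous equations `I`, which is geometrically integral and of dimension at least three, and
suppose that through every point of `V` over the algebraic closure of `k` there is a line contained
in `V`. Let `F` and `G` be forms over `k` of the same degree `m ≥ 1` and let `X` be the subvariety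
`F + t G = 0` of `V` over `k(t)`, the generic member of the pencil. Then a zero-cycle on `X` with
rational coefficients is rationally equivalent to zero if and only if it has degree zero. -/
theorem result (k : Type) [Field k] [Finite k] (σ : Type) [Finite σ]
    (I : Set (MvPolynomial σ k)) (hI : ∀ Q ∈ I, ∃ d, Q.IsHomogeneous d)
    (hprime : (geomI I).IsPrime)
    (hdim : 4 ≤ Algebra.trdeg (AlgebraicClosure k)
      (MvPolynomial σ (AlgebraicClosure k) ⧸ geomI I))
    (hlines : ∀ x : σ → AlgebraicClosure k, x ≠ 0 → (∀ Q ∈ I, MvPolynomial.aeval x Q = 0) →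
      ∃ y : σ → AlgebraicClosure k, (∀ c : AlgebraicClosure k, y ≠ c • x) ∧
        ∀ Q ∈ I, ∀ u v : AlgebraicClosure k,
          MvPolynomial.aeval (fun j => u * x j + v * y j) Q = 0)
    (m : ℕ) (hm : 1 ≤ m) (F G : MvPolynomial σ k) (hF : F.IsHomogeneous m)
    (hG : G.IsHomogeneous m) (z : (σ → AlgebraicClosure (RatFunc k)) →₀ ℚ)
    (hz : z ∈ cycles (wOne σ) (eqX I F G)) :
    z ∈ ratEquiv (wOne σ) (eqX I F G) ↔ z.sum (fun _ a => a) = 0 :=
  pencil_lines ⟨hI, hm, hF, hG⟩ hprime (by exact_mod_cast hdim) hlines z hz

end Pool.Agent.Results.MP_0b9e0b_ag.PencilsOnLineCovered
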